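import Pool.Agent.Lib.MP_cdddd3_co.Values
import Pool.Agent.Lib.MP_cdddd3_co.Roots
import Pool.Agent.Lib.MP_cdddd3_co_U.Unique

set_option autoImplicit false

/-!
# MP_cdddd3_co: a Schur coefficient of an integral Jack polynomial which is not real-rooted

The integral Jack polynomial `J_λ(x; τ)`, `λ = (8, 8)`, in `16` variables, and its coefficient
`v(τ)` at the Schur polynomial `s_μ`, `μ = (2, 2, 2, 2, 2, 2, 2, 2)`. The numbers `a_j` with
`v(τ) = ∑ a_j binom(τ + j, 16)` are computed, and the polynomial `∑ a_j z^j` has a non-real zero.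
-/

namespace Pool.Agent.Results.MP_cdddd3_co.JackNonRealZero

open MvPolynomial

/-- The arm of the box in row `i` and column `j` (both counted from `0`) of the diagram of `lam`:
the number of the boxes to the right of it. -/
def arm {n : ℕ} (lam : Fin n → ℕ) (i : Fin n) (j : ℕ) : ℕ := lam i - (j + 1)

/-- The leg of the box in row `i` and column `j` (both counted from `0`) of the diagram of `lam`:
the number of the boxes below it. -/
def leg {n : ℕ} (lam : Fin n → ℕ) (i : Fin n) (j : ℕ) : ℕ :=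
  (Finset.univ.filter fun k : Fin n => i < k ∧ j < lam k).card

/-- The scalar `c_lam(τ)`, the product of `τ (leg + 1) + arm` over the boxes of `lam`. -/
noncomputable def cJack {n : ℕ} (lam : Fin n → ℕ) (τ : ℝ) : ℝ :=
  ∏ i : Fin n, ∏ j ∈ Finset.range (lam i), (τ * ((leg lam i j : ℝ) + 1) + (arm lam i j : ℝ))

/-- Every monomial `x^m` of `f` has degree `lam_1 + ... + lam_n`, and the sum of any `k` of its
exponents is at most `lam_1 + ... + lam_k`. For a symmetric `f` this says that `f` is a linear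
combination of the monomial symmetric polynomials `m_ν` with `ν ≤ lam` in the dominance order. -/
def DominatedBy {n : ℕ} (lam : Fin n → ℕ) (f : MvPolynomial (Fin n) ℝ) : Prop :=
  ∀ m ∈ f.support, ∑ i, m i = ∑ i, lam i ∧
    ∀ S : Finset (Fin n), ∑ i ∈ S, m i ≤
      ∑ i ∈ Finset.univ.filter (fun i : Fin n => (i : ℕ) < S.card), lam i

/-- `f` is an eigenfunction with eigenvalue `e` of the Laplace-Beltrami operator
`∑_i x_i² ∂_i² + 2 τ ∑_{i<j} (x_i² ∂_i - x_j² ∂_j) / (x_i - x_j)`; here `q i j` is the quotient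
`(x_i² ∂_i f - x_j² ∂_j f) / (x_i - x_j)`. -/
def IsEigenfunction {n : ℕ} (τ : ℝ) (f : MvPolynomial (Fin n) ℝ) (e : ℝ) : Prop :=
  ∃ q : Fin n → Fin n → MvPolynomial (Fin n) ℝ,
    (∀ i j : Fin n, i < j →
      (X i - X j) * q i j = X i ^ 2 * pderiv i f - X j ^ 2 * pderiv j f) ∧
    ∑ i : Fin n, X i ^ 2 * pderiv i (pderiv i f)
      + C (2 * τ) * ∑ i : Fin n, ∑ j : Fin n, (if i < j then q i j else 0) = C e * f

/-- `f` is the integral Jack polynomial `J_lam(x_1, ..., x_n; τ)`, with `α = 1 / τ`: it is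
symmetric, a combination of the `m_ν` with `ν ≤ lam`, with the coefficient `c_lam(τ)` at `m_lam`,
and an eigenfunction of the Laplace-Beltrami operator. -/
def IsIntegralJack {n : ℕ} (lam : Fin n → ℕ) (τ : ℝ) (f : MvPolynomial (Fin n) ℝ) : Prop :=
  f.IsSymmetric ∧ DominatedBy lam f ∧
    coeff (Finsupp.equivFunOnFinite.symm lam) f = cJack lam τ ∧ ∃ e : ℝ, IsEigenfunction τ f e

/-- The coefficient of the Schur polynomial `s_mu` in the Schur expansion of the symmetric
polynomial `f` in `n` variables: the coefficient of `x^(mu + δ)`, where `δ = (n - 1, ..., 1, 0)`,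
in the product of `f` and the Vandermonde polynomial `∏_{i<j} (x_i - x_j)`. -/
noncomputable def schurCoeff {n : ℕ} (mu : Fin n → ℕ) (f : MvPolynomial (Fin n) ℝ) : ℝ :=
  coeff (Finsupp.equivFunOnFinite.symm fun i : Fin n => mu i + (n - 1 - (i : ℕ)))
    (f * ∏ i : Fin n, ∏ j : Fin n, (if i < j then X i - X j else 1))

/-- The binomial coefficient `x (x - 1) ... (x - d + 1) / d!` of a real number `x`. -/
noncomputable def binom (x : ℝ) (d : ℕ) : ℝ :=
  (∏ i ∈ Finset.range d, (x - (i : ℝ))) / (d.factorial : ℝ)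

/-- The partition `(8, 8)` of `16`. -/
def lam : Fin 16 → ℕ := fun i => if (i : ℕ) < 2 then 8 else 0

/-- The partition `(2, 2, 2, 2, 2, 2, 2, 2)` of `16`. -/
def mu : Fin 16 → ℕ := fun i => if (i : ℕ) < 8 then 2 else 0

/-- The numbers `a_j`. -/
def a : ℕ → ℕ
  | 1 => 597793996800
  | 2 => 73236035174400
  | 3 => 2004440894668800
  | 4 => 19314619527168000
  | 5 => 79659352571904000
  | 6 => 154554571254988800
  | 7 => 146689299490406400
  | 8 => 68260823569612800
  | 9 => 15222991343616000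
  | 10 => 1568059637760000
  | 11 => 68516388864000
  | 12 => 804722688000
  | _ => 0

theorem binom_nat (N : ℕ) : binom (N : ℝ) 16 = (N.choose 16 : ℝ) := by
  have h : (descPochhammer ℝ 16).eval (N : ℝ) = ∏ i ∈ Finset.range 16, ((N : ℝ) - (i : ℝ)) := by
    rw [descPochhammer_eval_eq_prod_range]
  unfold binom
  rw [← h, descPochhammer_eval_eq_descFactorial, Nat.descFactorial_eq_factorial_mul_choose]
  push_cast
  field_simp

open Pool.Agent.MPcdddd3 in
theorem val_identity (τ : ℝ) : val τ = ∑ j ∈ Finset.range 16, (a j : ℝ) * binom (τ + j) 16 := by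
  rw [val_eq]
  simp only [valx, dd, w_zero, w1, w2, w3, w4, w5, w6, w7, w8, w9, Finset.sum_range_succ,
    Finset.sum_range_zero, a, binom, Finset.prod_range_succ, Finset.prod_range_zero,
    Nat.factorial, Nat.cast_ofNat, Nat.cast_zero, Nat.cast_one, zero_mul, zero_add, add_zero,
    one_mul]
  push_cast
  ring

theorem cJack_pos {n : ℕ} (lam : Fin n → ℕ) {τ : ℝ} (hτ : 0 < τ) : 0 < cJack lam τ := by
  unfold cJack
  refine Finset.prod_pos fun i _ => Finset.prod_pos fun j _ => ?_
  positivity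

theorem cJack_lam (τ : ℝ) : cJack lam τ
    = (∏ j ∈ Finset.range 8, (2 * τ + (j : ℝ))) * ∏ j ∈ Finset.range 8, (τ + (j : ℝ)) := by
  have h0 : ∀ j ∈ Finset.range 8, leg lam 0 j = 1 ∧ arm lam 0 j = 7 - j := by decide
  have h1 : ∀ j ∈ Finset.range 8, leg lam 1 j = 0 ∧ arm lam 1 j = 7 - j := by decide
  have hr : ∀ i : Fin 16, i ∉ ({0, 1} : Finset (Fin 16)) →
      ∏ j ∈ Finset.range (lam i), (τ * ((leg lam i j : ℝ) + 1) + (arm lam i j : ℝ)) = 1 := by
    intro i hi
    have h3 : ∀ i : Fin 16, i ∉ ({0, 1} : Finset (Fin 16)) → lam i = 0 := by decide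
    rw [h3 i hi, Finset.prod_range_zero]
  unfold cJack
  rw [← Finset.prod_subset (Finset.subset_univ ({0, 1} : Finset (Fin 16))) fun i _ hi => hr i hi,
    Finset.prod_pair (by decide)]
  have e0 : lam 0 = 8 := rfl
  have e1 : lam 1 = 8 := rfl
  rw [e0, e1, Finset.prod_congr rfl fun j hj => by rw [(h0 j hj).1, (h0 j hj).2],
    Finset.prod_congr (s₁ := Finset.range 8)
      (f := fun j => τ * ((leg lam 1 j : ℝ) + 1) + (arm lam 1 j : ℝ)) rfl
      fun j hj => by rw [(h1 j hj).1, (h1 j hj).2]]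
  simp only [Finset.prod_range_succ, Finset.prod_range_zero, Nat.reduceSub]
  push_cast
  ring

theorem sum_ext {n : ℕ} (b : Fin n → ℕ) (k : ℕ) (hk : k ≤ n) :
    ∑ i ∈ Finset.range k, Pool.Agent.MPcdddd3U.ext b i
      = ((∑ i ∈ Finset.univ.filter (fun i : Fin n => (i : ℕ) < k), b i : ℕ) : ℝ) := by
  rw [Nat.cast_sum, Finset.sum_filter]
  have h1 : ∑ i : Fin n, (if (i : ℕ) < k then (b i : ℝ) else 0)
      = ∑ i : Fin n, (fun l : ℕ => if l < k then Pool.Agent.MPcdddd3U.ext b l else 0) (i : ℕ) := by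
    refine Finset.sum_congr rfl fun i _ => ?_
    simp only [Pool.Agent.MPcdddd3U.ext_coe]
  rw [h1, Fin.sum_univ_eq_sum_range
    (fun l : ℕ => if l < k then Pool.Agent.MPcdddd3U.ext b l else 0) n, ← Finset.sum_filter]
  refine Finset.sum_congr ?_ fun _ _ => rfl
  ext l
  simp only [Finset.mem_filter, Finset.mem_range]
  omega

theorem dom_of_dominatedBy {n : ℕ} {lam : Fin n → ℕ} {f : MvPolynomial (Fin n) ℝ}
    (h : DominatedBy lam f) : Pool.Agent.MPcdddd3U.Dom f lam := by
  intro m hm
  obtain ⟨h1, h2⟩ := h m (mem_support_iff.mpr hm)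
  refine ⟨h1, fun k hk => ?_⟩
  rw [sum_ext _ k hk, sum_ext _ k hk]
  have h3 := h2 (Finset.univ.filter fun i : Fin n => (i : ℕ) < k)
  have hc : (Finset.univ.filter fun i : Fin n => (i : ℕ) < k).card = k := by
    have h4 := Finset.card_map (s := Finset.univ.filter fun i : Fin n => (i : ℕ) < k)
      Fin.valEmbedding
    have h5 : (Finset.univ.filter fun i : Fin n => (i : ℕ) < k).map Fin.valEmbedding
        = Finset.range k := by
      ext l
      simp only [Finset.mem_map, Finset.mem_filter, Finset.mem_univ, true_and,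
        Fin.valEmbedding_apply, Finset.mem_range]
      constructor
      · rintro ⟨i, hi, rfl⟩
        exact hi
      · intro hl
        exact ⟨⟨l, by omega⟩, hl, rfl⟩
    rw [← h4, h5, Finset.card_range]
  rw [hc] at h3
  exact_mod_cast h3

/-- For a partition `lam` and `τ > 0` there is at most one integral Jack polynomial. -/
theorem isIntegralJack_unique {n : ℕ} {lam : Fin n → ℕ} (hl : Antitone lam) {τ : ℝ} (hτ : 0 < τ)
    {f g : MvPolynomial (Fin n) ℝ} (hf : IsIntegralJack lam τ f) (hg : IsIntegralJack lam τ g) :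
    f = g := by
  obtain ⟨hs, hd, hc, e, he⟩ := hf
  obtain ⟨hs', hd', hc', e', he'⟩ := hg
  exact Pool.Agent.MPcdddd3U.unique (b := Finsupp.equivFunOnFinite.symm lam) hτ
    (fun i j hij => hl hij.le) (cJack_pos lam hτ).ne' hs hs' (dom_of_dominatedBy hd)
    (dom_of_dominatedBy hd') hc hc' he he'

open Pool.Agent.MPcdddd3 in
/-- The integral Jack polynomial of shape `(8, 8)` exists. -/
theorem isIntegralJack_J (τ : ℝ) (hτ : 0 < τ) :
    IsIntegralJack lam τ (J τ : MvPolynomial (Fin 16) ℝ) := by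
  refine ⟨J_symm τ, ?_, ?_, ?_⟩
  · intro m hm
    obtain ⟨h1, h2⟩ := J_support τ m (mem_support_iff.mp hm)
    refine ⟨by rw [h1]; decide, fun S => ?_⟩
    rcases Nat.lt_or_ge S.card 2 with h | h
    · interval_cases hS : S.card
      · rw [Finset.card_eq_zero] at hS
        simp [hS]
      · rw [Finset.card_eq_one] at hS
        obtain ⟨i, rfl⟩ := hS
        rw [Finset.sum_singleton]
        refine (h2 i).trans ?_
        decide
    · calc ∑ i ∈ S, m i ≤ ∑ i, m i :=
            Finset.sum_le_sum_of_subset (Finset.subset_univ S)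
        _ = 16 := h1
        _ = ∑ i ∈ Finset.univ.filter (fun i : Fin 16 => (i : ℕ) < 2), lam i := by decide
        _ ≤ _ := by
            refine Finset.sum_le_sum_of_subset fun i hi => ?_
            rw [Finset.mem_filter] at hi ⊢
            exact ⟨hi.1, lt_of_lt_of_le hi.2 h⟩
  · rw [coeff_J, if_pos (by decide)]
    have hW : (∏ i : Fin 16, W τ ((Finsupp.equivFunOnFinite.symm lam : Fin 16 →₀ ℕ) i))
        = W τ 8 * W τ 8 := by
      simp only [Finsupp.equivFunOnFinite_symm_apply_apply, lam]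
      rw [Fin.prod_univ_eq_prod_range (fun i : ℕ => W τ (if i < 2 then 8 else 0)) 16]
      simp [Finset.prod_range_succ, W_zero]
    rw [hW, J_top, cJack_lam]
  · obtain ⟨q, h1, h2⟩ := isD_J (n := 16) τ hτ
    exact ⟨_, q, h1, h2⟩

open Pool.Agent.MPcdddd3 in
theorem schurCoeff_J (τ : ℝ) : schurCoeff mu (J τ : MvPolynomial (Fin 16) ℝ) = val τ := by
  have hee : (fun i : Fin 16 => mu i + (16 - 1 - (i : ℕ))) = ee := by decide
  unfold schurCoeff val
  rw [hee, schur_coeff]

theorem coeff_unique (c : ℕ → ℝ)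
    (h : ∀ τ : ℝ, 0 < τ → ∑ j ∈ Finset.range 16, c j * binom (τ + j) 16 = 0) :
    ∀ j < 16, c j = 0 := by
  have key : ∀ k ≤ 16, ∀ j, 16 - k ≤ j → j < 16 → c j = 0 := by
    intro k
    induction k with
    | zero => intro _ j hj hj'; omega
    | succ k ih =>
      intro hk j hj hj'
      rcases Nat.lt_or_ge j (16 - k) with hlt | hge
      · have hjk : j = 15 - k := by omega
        have h1 := h ((16 - j : ℕ) : ℝ) (by
          have : 0 < 16 - j := by omega
          exact_mod_cast this)
        rw [Finset.sum_eq_single j] at h1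
        · rw [← Nat.cast_add, binom_nat, Nat.sub_add_cancel hj'.le, Nat.choose_self, Nat.cast_one,
            mul_one] at h1
          exact h1
        · intro i hi hij
          rw [Finset.mem_range] at hi
          rw [← Nat.cast_add, binom_nat]
          rcases lt_or_gt_of_ne hij with h2 | h2
          · rw [Nat.choose_eq_zero_of_lt (by omega), Nat.cast_zero, mul_zero]
          · rw [ih (by omega) i (by omega) hi, zero_mul]
        · intro hn
          exact absurd (Finset.mem_range.mpr hj') hn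
      · exact ih (by omega) j hge hj'
  intro j hj
  exact key 16 le_rfl j (by omega) hj

/-- For every `τ > 0` there is exactly one integral Jack polynomial `J_λ(x; τ)`, `λ = (8, 8)`, in
`16` variables. Its coefficient at `s_μ`, `μ = (2^8)`, is `∑ a_j binom(τ + j, 16)`, no other real
numbers have this property, and the polynomial `∑ a_j z^j` has a non-real zero. -/
theorem result :
    (∀ τ : ℝ, 0 < τ → ∃! f : MvPolynomial (Fin 16) ℝ, IsIntegralJack lam τ f) ∧
    ∀ J : ℝ → MvPolynomial (Fin 16) ℝ, (∀ τ : ℝ, 0 < τ → IsIntegralJack lam τ (J τ)) →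
      (∀ τ : ℝ, 0 < τ →
        schurCoeff mu (J τ) = ∑ j ∈ Finset.range 16, (a j : ℝ) * binom (τ + j) 16) ∧
      (∀ b : ℕ → ℝ,
        (∀ τ : ℝ, 0 < τ → schurCoeff mu (J τ) = ∑ j ∈ Finset.range 16, b j * binom (τ + j) 16) →
        ∀ j < 16, b j = a j) ∧
      ∃ z : ℂ, ∑ j ∈ Finset.range 16, (a j : ℂ) * z ^ j = 0 ∧ z.im ≠ 0 := by
  have hanti : Antitone lam := by
    intro i j hij
    have : (i : ℕ) ≤ (j : ℕ) := hij
    unfold lam
    split_ifs <;> omega
  refine ⟨fun τ hτ => ⟨Pool.Agent.MPcdddd3.J τ, isIntegralJack_J τ hτ,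
    fun f hf => isIntegralJack_unique hanti hτ hf (isIntegralJack_J τ hτ)⟩, fun J hJ => ?_⟩
  have hv : ∀ τ : ℝ, 0 < τ →
      schurCoeff mu (J τ) = ∑ j ∈ Finset.range 16, (a j : ℝ) * binom (τ + j) 16 := by
    intro τ hτ
    rw [isIntegralJack_unique hanti hτ (hJ τ hτ) (isIntegralJack_J τ hτ), schurCoeff_J,
      val_identity]
  refine ⟨hv, fun b hb j hj => ?_, ?_⟩
  · have h1 := coeff_unique (fun j => b j - a j) (fun τ hτ => by
      have h2 := (hb τ hτ).symm.trans (hv τ hτ)
      simp only [sub_mul, Finset.sum_sub_distrib]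
      rw [h2, sub_self]) j hj
    exact sub_eq_zero.mp h1
  · have h1 := Pool.Agent.MPcdddd3.not_real_rooted
    push Not at h1
    obtain ⟨z, hz, him⟩ := h1
    refine ⟨z, ?_, him⟩
    simp only [Finset.sum_range_succ, Finset.sum_range_zero, a]
    push_cast
    linear_combination (2090188800 * z) * hz

end Pool.Agent.Results.MP_cdddd3_co.JackNonRealZero
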